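import Pool.Agent.Helper94.LG.Sheet3
open MeasureTheory Metric Set Filter Topology
open scoped ENNReal NNReal

/-! # LG, part 3: row EX_NOR, exponentially many nearly orthogonal vectors -/

set_option autoImplicit false

namespace H11ST
namespace LG
namespace S72

/-- the sign of a bit -/
noncomputable def sg (b : Bool) : ℝ := if b then 1 else -1

theorem sg_cases (b : Bool) : sg b = 1 ∨ sg b = -1 := by
  cases b
  · right
    simp [sg]
  · left
    simp [sg]

theorem sg_sq (b : Bool) : sg b * sg b = 1 := by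
  rcases sg_cases b with h | h <;> rw [h] <;> norm_num

/-- the pairing -/
noncomputable def TT {d : ℕ} (x y : Fin d → Bool) : ℝ := ∑ i, sg (x i) * sg (y i)

theorem expsum {d : ℕ} (x : Fin d → Bool) (l : ℝ) :
    ∑ y : Fin d → Bool, Real.exp (l * TT x y) = (2 * Real.cosh l) ^ d := by
  have h1 : ∀ y : Fin d → Bool, Real.exp (l * TT x y) = ∏ i, Real.exp (l * (sg (x i) * sg (y i))) := by
    intro y
    rw [← Real.exp_sum, TT, Finset.mul_sum]
  simp_rw [h1]
  have h2 : ∀ i : Fin d, ∑ b : Bool, Real.exp (l * (sg (x i) * sg b)) = 2 * Real.cosh l := by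
    intro i
    rw [Fintype.sum_bool]
    have ht : sg true = 1 := by simp [sg]
    have hf : sg false = -1 := by simp [sg]
    rw [ht, hf, Real.cosh_eq]
    rcases sg_cases (x i) with h | h
    · rw [h]
      ring_nf
    · rw [h]
      ring_nf
  have h3 := Finset.prod_univ_sum (fun _ : Fin d => (Finset.univ : Finset Bool))
    (fun i b => Real.exp (l * (sg (x i) * sg b)))
  rw [Fintype.piFinset_univ] at h3
  rw [← h3]
  simp_rw [h2]
  simp

theorem tail {d : ℕ} (x : Fin d → Bool) (ε l : ℝ) (hl : l = ε ∨ l = -ε) :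
    ((Finset.univ.filter (fun y : Fin d → Bool => ε ^ 2 * d < l * TT x y)).card : ℝ) ≤
      2 ^ d * Real.exp (-(ε ^ 2 * d / 2)) := by
  have hl2 : l ^ 2 = ε ^ 2 := by
    rcases hl with h | h
    · rw [h]
    · rw [h]
      ring
  have h1 : ((Finset.univ.filter (fun y : Fin d → Bool => ε ^ 2 * d < l * TT x y)).card : ℝ) *
      Real.exp (ε ^ 2 * d) ≤ ∑ y : Fin d → Bool, Real.exp (l * TT x y) := by
    rw [← nsmul_eq_mul, ← Finset.sum_const]
    refine (Finset.sum_le_sum (fun y hy => ?_)).trans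
      (Finset.sum_le_sum_of_subset_of_nonneg (Finset.filter_subset _ _)
        (fun y _ _ => (Real.exp_pos (l * TT x y)).le))
    rw [Finset.mem_filter] at hy
    exact Real.exp_le_exp.2 hy.2.le
  rw [expsum] at h1
  have h2 : (2 * Real.cosh l) ^ d ≤ 2 ^ d * Real.exp (ε ^ 2 * d / 2) := by
    rw [mul_pow]
    refine mul_le_mul_of_nonneg_left ?_ (by positivity)
    have h3 := Real.cosh_le_exp_half_sq l
    refine (pow_le_pow_left₀ (Real.cosh_pos l).le h3 d).trans (le_of_eq ?_)
    rw [← Real.exp_nat_mul, hl2]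
    congr 1
    ring
  have h4 := h1.trans h2
  have h5 : Real.exp (ε ^ 2 * d / 2) = Real.exp (-(ε ^ 2 * d / 2)) * Real.exp (ε ^ 2 * d) := by
    rw [← Real.exp_add]
    congr 1
    ring
  rw [h5, ← mul_assoc] at h4
  exact le_of_mul_le_mul_right h4 (Real.exp_pos _)

theorem bad {d : ℕ} (x : Fin d → Bool) (ε : ℝ) (hε : 0 < ε) :
    ((Finset.univ.filter (fun y : Fin d → Bool => ε * d < |TT x y|)).card : ℝ) ≤
      2 * (2 ^ d * Real.exp (-(ε ^ 2 * d / 2))) := by
  have h1 := tail x ε ε (Or.inl rfl)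
  have h2 := tail x ε (-ε) (Or.inr rfl)
  have hsub : (Finset.univ.filter (fun y : Fin d → Bool => ε * d < |TT x y|)) ⊆
      (Finset.univ.filter (fun y : Fin d → Bool => ε ^ 2 * d < ε * TT x y)) ∪
      (Finset.univ.filter (fun y : Fin d → Bool => ε ^ 2 * d < -ε * TT x y)) := by
    intro y hy
    rw [Finset.mem_filter] at hy
    rw [Finset.mem_union, Finset.mem_filter, Finset.mem_filter]
    rcases lt_abs.1 hy.2 with h | h
    · left
      refine ⟨Finset.mem_univ _, ?_⟩
      nlinarith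
    · right
      refine ⟨Finset.mem_univ _, ?_⟩
      nlinarith
  have h3 := (Finset.card_le_card hsub).trans (Finset.card_union_le _ _)
  have h4 : ((Finset.univ.filter (fun y : Fin d → Bool => ε * d < |TT x y|)).card : ℝ) ≤
      ((Finset.univ.filter (fun y : Fin d → Bool => ε ^ 2 * d < ε * TT x y)).card : ℝ) +
      ((Finset.univ.filter (fun y : Fin d → Bool => ε ^ 2 * d < -ε * TT x y)).card : ℝ) := by
    exact_mod_cast h3
  linarith

theorem greedy (ε : ℝ) (hε : 0 < ε) (d : ℕ) : ∀ n : ℕ,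
    (n : ℝ) ≤ Real.exp (ε ^ 2 * d / 2) / 2 →
    ∃ x : Fin n → (Fin d → Bool), ∀ i j, i ≠ j → |TT (x i) (x j)| ≤ ε * d := by
  intro n
  induction n with
  | zero =>
    intro _
    exact ⟨fun i => i.elim0, fun i => i.elim0⟩
  | succ n ih =>
    intro hn
    push_cast at hn
    obtain ⟨x, hx⟩ := ih (by linarith)
    have hex : ∃ y : Fin d → Bool, ∀ i, |TT (x i) y| ≤ ε * d := by
      by_contra hcon
      push Not at hcon
      have hsub : (Finset.univ : Finset (Fin d → Bool)) ⊆ Finset.univ.biUnion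
          (fun i => Finset.univ.filter (fun y : Fin d → Bool => ε * d < |TT (x i) y|)) := by
        intro y _
        obtain ⟨i, hi⟩ := hcon y
        exact Finset.mem_biUnion.2 ⟨i, Finset.mem_univ _, Finset.mem_filter.2
          ⟨Finset.mem_univ _, hi⟩⟩
      have h1 := (Finset.card_le_card hsub).trans Finset.card_biUnion_le
      rw [Finset.card_univ, Fintype.card_fun, Fintype.card_bool, Fintype.card_fin] at h1
      have h2 : ((2 ^ d : ℕ) : ℝ) ≤ ∑ i : Fin n,
          ((Finset.univ.filter (fun y : Fin d → Bool => ε * d < |TT (x i) y|)).card : ℝ) := by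
        exact_mod_cast h1
      have h3 := h2.trans (Finset.sum_le_sum (fun i _ => bad (x i) ε hε))
      rw [Finset.sum_const, Finset.card_univ, Fintype.card_fin, nsmul_eq_mul, Nat.cast_pow,
        Nat.cast_ofNat] at h3
      have h4 : (n : ℝ) * (2 * (2 ^ d * Real.exp (-(ε ^ 2 * d / 2)))) < 2 ^ d := by
        have h5 : (n : ℝ) < Real.exp (ε ^ 2 * d / 2) / 2 := by linarith
        have h6 : (0 : ℝ) < 2 * (2 ^ d * Real.exp (-(ε ^ 2 * d / 2))) := by positivity
        calc (n : ℝ) * (2 * (2 ^ d * Real.exp (-(ε ^ 2 * d / 2)))) <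
            (Real.exp (ε ^ 2 * d / 2) / 2) * (2 * (2 ^ d * Real.exp (-(ε ^ 2 * d / 2)))) :=
              mul_lt_mul_of_pos_right h5 h6
          _ = 2 ^ d * (Real.exp (ε ^ 2 * d / 2) * Real.exp (-(ε ^ 2 * d / 2))) := by ring
          _ = 2 ^ d := by
            rw [← Real.exp_add, add_neg_cancel, Real.exp_zero, mul_one]
      linarith
    obtain ⟨y, hy⟩ := hex
    have hcomm : ∀ a b : Fin d → Bool, TT a b = TT b a := by
      intro a b
      unfold TT
      exact Finset.sum_congr rfl fun i _ => mul_comm _ _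
    refine ⟨Fin.cons y x, fun i j hij => ?_⟩
    rcases Fin.eq_zero_or_eq_succ i with hi | ⟨i', hi⟩ <;>
    rcases Fin.eq_zero_or_eq_succ j with hj | ⟨j', hj⟩
    · exact absurd (hi.trans hj.symm) hij
    · rw [hi, hj, Fin.cons_zero, Fin.cons_succ, hcomm]
      exact hy j'
    · rw [hi, hj, Fin.cons_zero, Fin.cons_succ]
      exact hy i'
    · rw [hi, hj, Fin.cons_succ, Fin.cons_succ]
      exact hx i' j' (fun h => hij (by rw [hi, hj, h]))

end S72

open S72 in
theorem ex_nor : EX_NOR := by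
  intro ε hε _ d hd n hn
  obtain ⟨x, hx⟩ := greedy ε hε d n hn
  have hd0 : (0 : ℝ) < d := by
    exact_mod_cast hd
  have hsq : √(d : ℝ) * √(d : ℝ) = d := Real.mul_self_sqrt hd0.le
  refine ⟨fun i => WithLp.toLp 2 (fun k => sg (x i k) / √(d : ℝ)), ?_, ?_⟩
  · intro i
    rw [EuclideanSpace.norm_eq]
    have h1 : ∀ k : Fin d, ‖(WithLp.toLp 2 (fun k => sg (x i k) / √(d : ℝ)) : E d) k‖ ^ 2 =
        1 / d := by
      intro k
      have e : (WithLp.toLp 2 (fun k => sg (x i k) / √(d : ℝ)) : E d) k =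
        sg (x i k) / √(d : ℝ) := rfl
      rw [e, Real.norm_eq_abs, sq_abs, div_pow, sq, sq, sg_sq, hsq]
    simp_rw [h1]
    rw [Finset.sum_const, Finset.card_univ, Fintype.card_fin, nsmul_eq_mul,
      mul_one_div_cancel hd0.ne', Real.sqrt_one]
  · intro i j hij
    have h1 : inner ℝ (WithLp.toLp 2 (fun k => sg (x i k) / √(d : ℝ)) : E d)
        (WithLp.toLp 2 (fun k => sg (x j k) / √(d : ℝ)) : E d) = TT (x i) (x j) / d := by
      rw [PiLp.inner_apply]
      have e : ∀ k : Fin d, inner ℝ ((WithLp.toLp 2 (fun k => sg (x i k) / √(d : ℝ)) : E d) k)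
          ((WithLp.toLp 2 (fun k => sg (x j k) / √(d : ℝ)) : E d) k) =
          sg (x i k) * sg (x j k) / d := by
        intro k
        have e1 : inner ℝ ((WithLp.toLp 2 (fun k => sg (x i k) / √(d : ℝ)) : E d) k)
          ((WithLp.toLp 2 (fun k => sg (x j k) / √(d : ℝ)) : E d) k) =
          (sg (x j k) / √(d : ℝ)) * (sg (x i k) / √(d : ℝ)) := rfl
        rw [e1, div_mul_div_comm, hsq, mul_comm (sg (x j k))]
      simp_rw [e]
      rw [← Finset.sum_div, TT]
    rw [h1, abs_div, abs_of_pos hd0, div_le_iff₀ hd0]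
    exact hx i j hij

end LG
end H11ST
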